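import Pool.Agent.Helper65.CS.Goals2

/-!
# CS, packet LOP: the loop
-/

namespace Pool.Agent.Helper81.CS

open Pool.Agent.Helper81.CC Pool.Agent.Helper78.DT Pool.Agent.Helper51.ZP
open Pool.Agent.Helper65.CS hiding st
open scoped Classical

theorem ovr_nil {n : ℕ} (x : Fin n → Bool) : ovr [] x = x := by
  funext v
  simp [ovr]

theorem length_le_sum (F : DList) : F.length ≤ (F.map fun e => e.1.length + 1).sum := by
  induction F with
  | nil => simp
  | cons e F ih =>
    simp only [List.length_cons, List.map_cons, List.sum_cons]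
    omega

theorem lt_two_pow_lg (N : ℕ) : N < 2 ^ lg N := by
  have h1 : N < 2 ^ (Nat.log 2 N + 1) := Nat.lt_pow_succ_log_self (by norm_num) N
  refine h1.trans_le (Nat.pow_le_pow_right (by norm_num) ?_)
  unfold lg
  omega

theorem st_succ (g : ℕ × DList × ℕ → ℕ) (c n : ℕ) (F : DList) (N k : ℕ) :
    Pool.Agent.Helper65.CS.st g c n F N (k + 1) = step g (bb (lg N)) (MM N) n N (Pool.Agent.Helper65.CS.st g c n F N k) := by
  unfold Pool.Agent.Helper65.CS.st
  rw [Function.iterate_succ_apply']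

/-- **Packet LOP.** -/
theorem lop (ste : SteStmt) (nrmS : NrmStmt) (itr : ItrStmt) (p1 : Pr1Stmt) (p2 : Pr2Stmt)
    (p3 : Pr3Stmt) : LopStmt := by
  intro c g hg
  obtain ⟨A1, hA1⟩ := p1 c
  obtain ⟨A2, hA2⟩ := p2 c
  obtain ⟨A3, hA3⟩ := p3 c
  refine ⟨max A1 (max A2 A3), ?_⟩
  intro n F hL
  obtain ⟨N, hN⟩ : ∃ N, N = dsize (n, F) := ⟨_, rfl⟩
  rw [← hN] at hL ⊢
  obtain ⟨h1M, h1N⟩ := hA1 N (le_trans (le_max_left _ _) hL)
  have h2 := hA2 N (le_trans (le_trans (le_max_left _ _) (le_max_right _ _)) hL)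
  obtain ⟨h3a, h3b⟩ := hA3 N (le_trans (le_trans (le_max_right _ _) (le_max_right _ _)) hL)
  have hnN : n ≤ N := by
    rw [hN]
    unfold dsize
    exact Nat.le_add_right _ _
  have hFN : F.length ≤ N := by
    rw [hN]
    unfold dsize
    exact (length_le_sum F).trans (Nat.le_add_left _ _)
  obtain ⟨W, hW⟩ : ∃ W, W = Ww c (lg N) := ⟨_, rfl⟩
  obtain ⟨F', hF'⟩ : ∃ F', F' = nrm n W F := ⟨_, rfl⟩
  obtain ⟨hNF, hlen, -, -⟩ := nrmS n W F
  have hs0 : Pool.Agent.Helper65.CS.st g c n F N 0 = ([], F') := by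
    rw [hF', hW]
    rfl
  have hb : 1 ≤ bb (lg N) := by
    unfold bb
    omega
  have key : ∀ j : ℕ, Inv n W F' (Pool.Agent.Helper65.CS.st g c n F N j) ∧ (Pool.Agent.Helper65.CS.st g c n F N j).2.length ≤ N ∧
      frac n F' ≤ frac n (Pool.Agent.Helper65.CS.st g c n F N j).2 + (j : ℝ) * (5 / (lg N : ℝ) ^ (c + 4)) := by
    intro j
    induction j with
    | zero =>
      rw [hs0]
      refine ⟨⟨List.nodup_nil, fun p hp => absurd hp List.not_mem_nil, ?_, fun x => ?_⟩, ?_, ?_⟩
      · rw [hF']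
        exact hNF
      · show DList.val x F' = DList.val (ovr [] x) F'
        rw [ovr_nil]
      · show F'.length ≤ N
        rw [hF']
        exact hlen.trans hFN
      · simp
    | succ j ih =>
      obtain ⟨i1, i2, i3⟩ := ih
      have h := ste (c + 4) g hg n N W (bb (lg N)) (uu (lg N)) (c + 5) (MM N) F' (Pool.Agent.Helper65.CS.st g c n F N j) i1
        h1M (by omega) hb h1N hnN i2 (by rw [hW]; exact h2)
      obtain ⟨s1, s2, s3, -⟩ := h
      rw [st_succ]
      refine ⟨s1, s2.trans i2, ?_⟩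
      rw [Nat.cast_add, Nat.cast_one, add_mul, one_mul]
      linarith
  have hal : ∀ j : ℕ, (al n (Pool.Agent.Helper65.CS.st g c n F N (j + 1)).1).length * 2 ^ (bb (lg N) + 1) +
      (al n (Pool.Agent.Helper65.CS.st g c n F N j).1).length ≤ (al n (Pool.Agent.Helper65.CS.st g c n F N j).1).length * 2 ^ (bb (lg N) + 1) := by
    intro j
    obtain ⟨i1, i2, -⟩ := key j
    have h := ste (c + 4) g hg n N W (bb (lg N)) (uu (lg N)) (c + 5) (MM N) F' (Pool.Agent.Helper65.CS.st g c n F N j) i1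
      h1M (by omega) hb h1N hnN i2 (by rw [hW]; exact h2)
    rw [st_succ]
    exact h.2.2.2
  have ha0 : (al n (Pool.Agent.Helper65.CS.st g c n F N 0).1).length < 2 ^ lg N := by
    have h1 : (al n (Pool.Agent.Helper65.CS.st g c n F N 0).1).length ≤ n := by
      unfold al
      refine (List.length_filter_le _ _).trans ?_
      rw [List.length_range]
    exact lt_of_le_of_lt (h1.trans hnN) (lt_two_pow_lg N)
  have hz := itr (fun j => (al n (Pool.Agent.Helper65.CS.st g c n F N j).1).length) (2 ^ (bb (lg N) + 1)) (lg N)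
    (Nat.one_le_two_pow) (by unfold lg; omega) hal ha0
  have hTT : TT (lg N) = 2 ^ (bb (lg N) + 1) * lg N := by
    unfold TT
    ring
  obtain ⟨k1, -, k3⟩ := key (TT (lg N))
  rw [← hW, ← hF']
  refine ⟨k1, ?_, ?_, ?_⟩
  · rw [hTT]
    exact List.eq_nil_of_length_eq_zero hz
  · linarith
  · rw [hW]
    exact h3b

end Pool.Agent.Helper81.CS
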